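import Pool.Agent.Helper67.KPG.St2

/-!
# Project KP (MP_26be5b_ag), chapter G, algebraic part 2, module HMG: homogenization
-/

set_option autoImplicit false

namespace Pool.Agent.Helper28.KPG

open Pool.Agent.Helper67.NO Pool.Agent.Helper52.KP Pool.Agent.Helper67.KPG

universe u

private lemma hmg_prod {g : Type u} [LieRing g] [LieAlgebra ℂ g] [FiniteDimensional ℂ g]
    (H : HPc g) {n : ℕ} (k : ℕ) (F : Fin n → g → ℂ) (hF : ∀ l, HP k (F l)) (s : Fin n → ℕ)
    (A : Finset (Fin n)) : HP ((∑ l ∈ A, s l) * k) (fun x => ∏ l ∈ A, F l x ^ s l) := by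
  classical
  induction A using Finset.induction_on with
  | empty => simpa using H.const 1
  | insert a A ha ih =>
    have h1 := H.mul _ _ _ _ (H.pow k (s a) (F a) (hF a)) ih
    simp only [Finset.prod_insert ha, Finset.sum_insert ha, add_mul]
    exact h1

private lemma hmg_deg {n : ℕ} (P : MvPolynomial (Fin n) ℂ) (s : Fin n →₀ ℕ) (hs : s ∈ P.support) :
    ∑ l, s l ≤ P.totalDegree := by
  have h := MvPolynomial.le_totalDegree hs
  rwa [Finsupp.sum_fintype _ _ (fun _ => rfl)] at h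

theorem hHMG (hHPC : StHPC.{u}) : StHMG.{u} := by
  intro g _ _ _ ν hν
  have H := hHPC g
  choose P hP using hν
  refine ⟨∑ i, (P i).totalDegree, fun b' hb k t V ht hV => ?_⟩
  have hle : ∀ i, ∀ s ∈ (P i).support, ∑ l, s l ≤ b' := fun i s hs =>
    (hmg_deg (P i) s hs).trans ((Finset.single_le_sum (f := fun i => (P i).totalDegree)
      (fun _ _ => Nat.zero_le _) (Finset.mem_univ i)).trans hb)
  let Wc : Fin (Module.finrank ℂ g) → g → ℂ := fun i x =>
    ∑ s ∈ (P i).support, (P i).coeff s * (t x ^ (b' - ∑ l, s l) * ∏ l, (co (V x) l) ^ (s l))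
  have hWc : ∀ i, HP (b' * k) (Wc i) := by
    intro i
    refine H.sum _ _ _ _ fun s hs => H.smul _ _ _ ?_
    have h1 := H.mul _ _ _ _ (H.pow k (b' - ∑ l, s l) t ht)
      (hmg_prod H k (fun l x => co (V x) l) hV s Finset.univ)
    rw [← add_mul, Nat.sub_add_cancel (hle i s hs)] at h1
    exact h1
  let W : g → g := fun x => ∑ i, Wc i x • Module.finBasis ℂ g i
  have hco : ∀ x i, co (W x) i = Wc i x := by
    intro x i
    simp only [co, W, map_sum, map_smul, Module.Basis.repr_self, Finsupp.coe_finsetSum,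
      Finset.sum_apply, Finsupp.smul_apply, Finsupp.single_apply, smul_eq_mul, mul_ite, mul_one,
      mul_zero, Finset.sum_ite_eq', Finset.mem_univ, if_true]
  refine ⟨W, fun i => ?_, fun x hx => ?_⟩
  · simp only [hco]
    exact hWc i
  · refine (Module.finBasis ℂ g).ext_elem fun i => ?_
    change co (W x) i = co (t x ^ b' • ν ((t x)⁻¹ • V x)) i
    have e1 : co (t x ^ b' • ν ((t x)⁻¹ • V x)) i = t x ^ b' * co (ν ((t x)⁻¹ • V x)) i := by
      simp only [co, map_smul, Finsupp.smul_apply, smul_eq_mul]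
    have e2 : ∀ l, (Module.finBasis ℂ g).repr ((t x)⁻¹ • V x) l = (t x)⁻¹ * co (V x) l := by
      intro l
      simp only [co, map_smul, Finsupp.smul_apply, smul_eq_mul]
    rw [e1, hco, hP, pev, MvPolynomial.eval_eq', Finset.mul_sum]
    refine Finset.sum_congr rfl fun s hs => ?_
    simp only [e2]
    have e3 : ∏ l, ((t x)⁻¹ * co (V x) l) ^ s l =
        (t x)⁻¹ ^ (∑ l, s l) * ∏ l, (co (V x) l) ^ s l := by
      simp only [mul_pow, Finset.prod_mul_distrib, Finset.prod_pow_eq_pow_sum]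
    have e4 : t x ^ b' = t x ^ (b' - ∑ l, s l) * t x ^ (∑ l, s l) := by
      rw [← pow_add, Nat.sub_add_cancel (hle i s hs)]
    have e5 : t x ^ (∑ l, s l) * (t x)⁻¹ ^ (∑ l, s l) = 1 := by
      rw [← mul_pow, mul_inv_cancel₀ hx, one_pow]
    rw [e3, e4]
    linear_combination (-(P i).coeff s * t x ^ (b' - ∑ l, s l) * ∏ l, (co (V x) l) ^ s l) * e5

end Pool.Agent.Helper28.KPG
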