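import Pool.Agent.Helper67.KPG.St3

/-!
# Project KP (MP_26be5b_ag), chapter G, module PHL: polynomials are holomorphic on the orbit
-/

set_option autoImplicit false

namespace Pool.Agent.Helper28.KPG

open Pool.Agent.Helper67.NO Pool.Agent.Helper52.KP Pool.Agent.Helper67.KPG

universe u

private lemma phl_hom {n : ℕ} (P : MvPolynomial (Fin n) ℂ) (k : ℕ) (hP : P.IsHomogeneous k)
    (c : ℂ) (v : Fin n → ℂ) :
    MvPolynomial.eval (fun i => c * v i) P = c ^ k * MvPolynomial.eval v P := by
  rw [MvPolynomial.eval_eq', MvPolynomial.eval_eq', Finset.mul_sum]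
  refine Finset.sum_congr rfl fun s hs => ?_
  have h1 : ∑ i, s i = k := by
    have h2 := hP (MvPolynomial.mem_support_iff.mp hs)
    rw [show (1 : Fin n → ℕ) = fun _ => 1 from rfl, ← Finsupp.degree_eq_weight_one] at h2
    rw [← h2, Finsupp.degree_eq_sum]
  have h3 : ∏ i, (c * v i) ^ s i = c ^ (∑ i, s i) * ∏ i, v i ^ s i := by
    simp only [mul_pow, Finset.prod_mul_distrib, Finset.prod_pow_eq_pow_sum]
  rw [h3, h1]; ring

private lemma phl_diff {n m : ℕ} (P : MvPolynomial (Fin n) ℂ) (f : (Fin m → ℂ) → (Fin n → ℂ))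
    (hf : Differentiable ℂ f) : Differentiable ℂ (fun w => MvPolynomial.eval (f w) P) := by
  have hfi : ∀ i, Differentiable ℂ (fun w => f w i) := fun i => differentiable_pi.mp hf i
  induction P using MvPolynomial.induction_on with
  | C a => simp
  | add p q hp hq => simpa only [map_add] using hp.fun_add hq
  | mul_X p i hp => simpa only [map_mul, MvPolynomial.eval_X] using hp.fun_mul (hfi i)

theorem hPHL (hORB : Pool.Agent.Helper52.KP.StORB.{u}) : StPHL.{u} := by
  intro g _ _ _ _ x₀ k F hF
  obtain ⟨P, hP, hFP⟩ := hF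
  refine ⟨fun x n X => ?_, fun x y c hc hy => ?_⟩
  · have h1 : HolMap Set.univ (chart x.1 X) := ((hORB g).2.2.2.1 n x.1 X).1
    have h2 : Differentiable ℂ (fun w => co (chart x.1 X w)) := differentiableOn_univ.mp h1
    have h3 := phl_diff P (fun w => co (chart x.1 X w)) h2
    simp only [hFP]
    exact h3
  · simp only [hFP]
    rw [hy]
    have h4 := phl_hom P k hP c (co x.1)
    rw [pev, pev]
    rw [show (fun i => (Module.finBasis ℂ g).repr (c • x.1) i) = fun i => c * co x.1 i from by
      funext i; simp only [co, map_smul, Finsupp.smul_apply, smul_eq_mul]]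
    exact h4

end Pool.Agent.Helper28.KPG
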